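import Pool.Agent.L0h23.FR.Cla

/-!
# The reciprocity law and the supplementary laws in the ring of the Eisenstein integers
-/

set_option autoImplicit false
set_option linter.unusedSectionVars false

open scoped NumberTheorySymbols

namespace Pool.Agent.L0h23.FR

open Pool.Agent.W192.HK Pool.Agent.Y696 Pool.Agent.Y715.T.Lat Pool.Agent.L0h86.F3
open Pool.Agent.L0h4.T3 (norm_cj norm_of_cj norm_prod eis_nat_dvd nat_not_unit norm_mod_three
  inert_prime split_prime prime_of_norm exists_below hp)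
open Pool.Agent.Y698.SG (lg lg_one lg_neg_one lg_mul)

/-- the sign modulo four, additively -/
def G (x : ZMod 4) : ZMod 2 := if x = 0 ∨ x = 1 then 0 else 1

/-- reduction modulo two -/
def h2 (x : ZMod 4) : ZMod 2 := (x.val : ZMod 2)

lemma h2_cast (b : ℤ) : h2 (b : ZMod 4) = (b : ZMod 2) := by
  unfold h2
  have h : ((b : ZMod 4).val : ℤ) = b % 4 := by
    rw [ZMod.val_intCast]
    rfl
  have h1 : (((b : ZMod 4).val : ℕ) : ZMod 2) = ((((b : ZMod 4).val : ℕ) : ℤ) : ZMod 2) := by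
    push_cast
    rfl
  rw [h1, h, ZMod.intCast_eq_intCast_iff]
  show b % 4 % 2 = b % 2
  omega

lemma int4 (b : ℤ) (t : ℤ) (h : b % 4 = t) : (b : ZMod 4) = (t : ZMod 4) := by
  rw [ZMod.intCast_eq_intCast_iff]
  show b % 4 = t % 4
  omega

lemma lg_gz (b : ℤ) : lg ((gz b : ℤ) : ℂ) = G (b : ZMod 4) := by
  unfold gz
  have h : b % 4 = 0 ∨ b % 4 = 1 ∨ b % 4 = 2 ∨ b % 4 = 3 := by omega
  rcases h with h | h | h | h
  · rw [if_pos (Or.inl h), int4 b _ h]
    push_cast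
    rw [lg_one]
    decide
  · rw [if_pos (Or.inr h), int4 b _ h]
    push_cast
    rw [lg_one]
    decide
  · rw [if_neg (by omega), int4 b _ h]
    push_cast
    rw [lg_neg_one]
    decide
  · rw [if_neg (by omega), int4 b _ h]
    push_cast
    rw [lg_neg_one]
    decide

lemma gz_sgn (b : ℤ) : ((gz b : ℤ) : ℂ) = 1 ∨ ((gz b : ℤ) : ℂ) = -1 := by
  unfold gz
  split_ifs
  · left; push_cast; rfl
  · right; push_cast; rfl

section deg1

variable {ϖ ρ : eis} {p q : ℕ} {z b u d : ℤ}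

lemma D1.par (h : D1 ϖ p z b) : (z + b) % 2 = 1 := by
  have := res h.eq h.odd
  omega

lemma D1.b0 (h : D1 ϖ p z b) : b ≠ 0 := by
  intro h0
  have h1 := h.eq
  rw [h0] at h1
  have h2 : (p : ℤ) = z * z := by linear_combination h1
  have hp' : Prime (p : ℤ) := Nat.prime_iff_prime_int.1 h.pr
  rw [h2] at hp'
  have := hp'.irreducible.isUnit_or_isUnit rfl
  rw [or_self] at this
  exact hp'.not_isUnit (this.mul this)

lemma cop_of_lt {p : ℕ} (hp : p.Prime) {m : ℤ} (h0 : m ≠ 0) (h : m ^ 2 < (p : ℤ) ^ 2) :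
    IsCoprime m (p : ℤ) := by
  apply IsCoprime.symm
  rw [(Nat.prime_iff_prime_int.1 hp).coprime_iff_not_dvd]
  intro hd
  have h1 := Int.le_of_dvd (abs_pos.2 h0) ((dvd_abs _ _).2 hd)
  have h2 : (p : ℤ) ^ 2 ≤ |m| ^ 2 := pow_le_pow_left₀ (by positivity) h1 2
  rw [sq_abs] at h2
  omega

lemma D1.cb (h : D1 ϖ p z b) : IsCoprime b (p : ℤ) := by
  apply cop_of_lt h.pr h.b0
  have h1 := h.eq
  have h2 : 0 < b ^ 2 := by have := h.b0; positivity
  nlinarith [sq_nonneg z]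

lemma D1.z0 (h : D1 ϖ p z b) : z ≠ 0 := by
  have := h.m3
  omega

lemma D1.cz (h : D1 ϖ p z b) : IsCoprime z (p : ℤ) := by
  apply cop_of_lt h.pr h.z0
  have h1 := h.eq
  have h2 : 0 < b ^ 2 := by have := h.b0; positivity
  have h3 : 0 < z ^ 2 := by have := h.z0; positivity
  nlinarith [sq_nonneg z]

lemma D1.sy (h : D1 ϖ p z b) (m : ℤ) : sy ϖ (m : eis) = ((J(m | p) : ℤ) : ℂ) := sy_deg1 h.pr h.nm m

lemma D1.prime (h : D1 ϖ p z b) : Prime ϖ := prime_of_norm h.pr (norm_cj ϖ h.nm)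

lemma D1.bt (h : D1 ϖ p z b) {a : ℤ} (ha : z + b = 1 + 2 * a) :
    bt ϖ = ⟨(a : ZMod 2), (b : ZMod 2)⟩ := by
  rw [h.rep, ha, ← ez_half, bt_eq, rho_ez]

lemma D1.sb (h : D1 ϖ p z b) : J(b | p) = gz b := fJ h.eq h.odd h.cb h.b0

/-- the symbol of another element -/
lemma D1.syr (h : D1 ϖ p z b) : ((gz b : ℤ) : ℂ) * Pool.Agent.L0h86.F3.sy ϖ (ez (u + d) (2 * d)) =
    ((J(b * u - d * z | p) : ℤ) : ℂ) := by
  rw [← h.sb, ← h.sy, ← h.sy, ← sy_mul' h.prime]
  apply sy_per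
  rw [Ideal.mem_span_singleton, h.rep]
  refine ⟨(d : eis), ?_⟩
  unfold ez
  push_cast
  ring

lemma jval (x : ℤ) (n : ℕ) (h : ((J(x | n) : ℤ) : ℂ) ≠ 0) :
    ((J(x | n) : ℤ) : ℂ) = 1 ∨ ((J(x | n) : ℤ) : ℂ) = -1 := by
  rcases jacobiSym.trichotomy x n with h1 | h1 | h1
  · rw [h1] at h
    exact absurd (Int.cast_zero) h
  · left; rw [h1, Int.cast_one]
  · right; rw [h1]; push_cast; rfl

lemma sgn_ne {x : ℂ} (h : x = 1 ∨ x = -1) : x ≠ 0 := by
  rcases h with rfl | rfl <;> norm_num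

lemma lg_neg (hn : q % 2 = 1) : lg ((J(-1 | q) : ℤ) : ℂ) = if q % 4 = 1 then 0 else 1 := by
  rw [jneg hn]
  split_ifs
  · rw [Int.cast_one, lg_one]
  · push_cast
    rw [lg_neg_one]

/-- two primes of degree one -/
theorem rec11 (h : D1 ϖ p z b) (h' : D1 ρ q u d) (h1 : ϖ ∉ sp ρ) (h2' : ρ ∉ sp ϖ) :
    lg (Pool.Agent.L0h86.F3.sy ρ ϖ) + lg (Pool.Agent.L0h86.F3.sy ϖ ρ) =
      F4.tr (Pool.Agent.L0h86.F3.bt ϖ * Pool.Agent.L0h86.F3.bt ρ) := by
  have s1 := sy_sgn h1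
  have s2 := sy_sgn h2'
  have e1 : ((gz b : ℤ) : ℂ) * Pool.Agent.L0h86.F3.sy ϖ ρ = ((J(b * u - d * z | p) : ℤ) : ℂ) := by
    rw [← h.syr, h'.rep]
  have e2 : ((gz d : ℤ) : ℂ) * Pool.Agent.L0h86.F3.sy ρ ϖ = ((J(d * z - b * u | q) : ℤ) : ℂ) := by
    rw [← h'.syr, h.rep]
  obtain ⟨W, hW⟩ : ∃ W : ℤ, W = b * u - d * z := ⟨_, rfl⟩
  have hW' : d * z - b * u = -1 * W := by rw [hW]; ring
  rw [← hW] at e1
  rw [hW', jacobiSym.mul_left] at e2
  push_cast at e2
  have v1 := jval W p (by rw [← e1]; exact mul_ne_zero (sgn_ne (gz_sgn b)) (sgn_ne s2))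
  have n2 : ((J(-1 | q) : ℤ) : ℂ) * ((J(W | q) : ℤ) : ℂ) ≠ 0 := by
    rw [← e2]
    exact mul_ne_zero (sgn_ne (gz_sgn d)) (sgn_ne s1)
  have v2 := jval W q (right_ne_zero_of_mul n2)
  have v3 := jval (-1) q (left_ne_zero_of_mul n2)
  -- logarithms
  have l1 := congrArg lg e1
  rw [lg_mul (gz_sgn b) s2, lg_gz] at l1
  have l2 := congrArg lg e2
  rw [lg_mul (gz_sgn d) s1, lg_gz, lg_mul v3 v2, lg_neg h'.odd] at l2
  -- the symbol of the product
  have _ : NeZero p := ⟨h.pr.ne_zero⟩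
  have _ : NeZero q := ⟨h'.pr.ne_zero⟩
  have hW0 : W ≠ 0 := by
    intro h0
    rw [h0] at v1
    have h3 : J(0 | p) = 0 := jacobiSym.zero_left h.pr.one_lt
    rw [h3, Int.cast_zero] at v1
    norm_num at v1
  have hcp : ∀ {r : ℕ}, r.Prime → (((J(W | r) : ℤ) : ℂ) = 1 ∨ ((J(W | r) : ℤ) : ℂ) = -1) →
      IsCoprime W (r : ℤ) := by
    intro r hr hv
    apply IsCoprime.symm
    rw [(Nat.prime_iff_prime_int.1 hr).coprime_iff_not_dvd]
    intro hd
    have h3 : J(W | r) = 0 := by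
      rw [jacobiSym.mod_left, Int.emod_eq_zero_of_dvd hd]
      exact jacobiSym.zero_left hr.one_lt
    rw [h3, Int.cast_zero] at hv
    norm_num at hv
  have e3 : J(W | p) * J(W | q) = gz W := by
    rw [← jacobiSym.mul_right]
    apply fJ (z := z * u + 3 * b * d)
    · push_cast
      rw [h.eq, h'.eq, hW]
      ring
    · rw [Nat.mul_mod, h.odd, h'.odd]
    · push_cast
      exact (hcp h.pr v1).mul_right (hcp h'.pr v2)
    · exact hW0
  have l3 : lg ((J(W | p) : ℤ) : ℂ) + lg ((J(W | q) : ℤ) : ℂ) = G (W : ZMod 4) := by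
    rw [← lg_gz, ← e3, ← lg_mul v1 v2]
    push_cast
    rfl
  obtain ⟨a, ha⟩ : ∃ a, z + b = 1 + 2 * a := ⟨(z + b - 1) / 2, by have := h.par; omega⟩
  obtain ⟨c, hc⟩ : ∃ c, u + d = 1 + 2 * c := ⟨(u + d - 1) / 2, by have := h'.par; omega⟩
  rw [h.bt ha, h'.bt hc]
  have hd : (if q % 4 = 1 then 0 else 1 : ZMod 2) = (d : ZMod 2) := by
    have := res h'.eq h'.odd
    split_ifs with h4
    · exact ((ZMod.intCast_zmod_eq_zero_iff_dvd d 2).2 (by
        push_cast
        omega)).symm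
    · have h5 : d % 2 = 1 := by omega
      have : (d : ZMod 2) = ((1 : ℤ) : ZMod 2) := by
        rw [ZMod.intCast_eq_intCast_iff]
        show d % 2 = 1 % 2
        omega
      rw [this, Int.cast_one]
  rw [hd] at l2
  show _ = (a : ZMod 2) * (d : ZMod 2) + (b : ZMod 2) * (c : ZMod 2) + (b : ZMod 2) * (d : ZMod 2)
  have key : ∀ a b c d : ZMod 4, G b + G d + h2 d + G (b * (1 + 2 * c - d) - d * (1 + 2 * a - b)) =
      h2 a * h2 d + h2 b * h2 c + h2 b * h2 d := by decide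
  have k1 := key a b c d
  rw [h2_cast, h2_cast, h2_cast, h2_cast] at k1
  have hW4 : (W : ZMod 4) = (b : ZMod 4) * (1 + 2 * c - d) - d * (1 + 2 * a - b) := by
    have e4 : W = b * (1 + 2 * c - d) - d * (1 + 2 * a - b) := by
      rw [hW]
      have e5 : u = 1 + 2 * c - d := by omega
      have e6 : z = 1 + 2 * a - b := by omega
      rw [e5, e6]
    rw [e4]
    push_cast
    ring
  rw [hW4] at l3
  rw [← k1, ← l3]
  have two : ∀ x : ZMod 2, x + x = 0 := by decide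
  linear_combination l1 + l2 - two (G (b : ZMod 4)) - two (G (d : ZMod 4))

end deg1

lemma sy_neg_mod (ϖ x : eis) : sy (-ϖ) x = sy ϖ x := by
  have h : ∀ I J : Ideal eis, I = J → ((x ∈ I ↔ x ∈ J) ∧
      (IsSquare (Ideal.Quotient.mk I x) ↔ IsSquare (Ideal.Quotient.mk J x))) := by
    rintro I J rfl
    exact ⟨Iff.rfl, Iff.rfl⟩
  obtain ⟨h1, h2⟩ := h (sp (-ϖ)) (sp ϖ) (Ideal.span_singleton_neg ϖ)
  unfold sy
  by_cases h3 : x ∈ sp ϖ
  · rw [if_pos h3, if_pos (h1.2 h3)]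
  · rw [if_neg h3, if_neg (fun h => h3 (h1.1 h))]
    by_cases h4 : IsSquare (Ideal.Quotient.mk (sp ϖ) x)
    · rw [if_pos h4, if_pos (h2.2 h4)]
    · rw [if_neg h4, if_neg (fun h => h4 (h2.1 h))]

lemma bt_negq {q : ℕ} {c : ℤ} (h : -(q : ℤ) = 1 + 2 * c) : bt (-((q : ℕ) : eis)) = ⟨(c : ZMod 2), 0⟩ := by
  have e : -((q : ℕ) : eis) = 1 + 2 * ez c 0 := by
    rw [ez_half, ← h]
    unfold ez
    push_cast
    ring
  rw [e, bt_eq, rho_ez]
  simp

/-- a prime of degree one and an inert prime -/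
theorem rec12 {ϖ : eis} {p q : ℕ} {z b : ℤ} (h : D1 ϖ p z b) (hq : q.Prime) (h2 : q % 2 = 1)
    (h3 : q % 3 = 2) (hne : p ≠ q) : lg (sy (-((q : ℕ) : eis)) ϖ) + lg (sy ϖ (-((q : ℕ) : eis))) =
      F4.tr (bt ϖ * bt (-((q : ℕ) : eis))) := by
  rw [sy_neg_mod, sy_inert hq h2 h3 ϖ (norm_cj ϖ h.nm)]
  have e1 : sy ϖ (-((q : ℕ) : eis)) = ((J(-1 | p) : ℤ) : ℂ) * ((J((q : ℤ) | p) : ℤ) : ℂ) := by
    have : (-((q : ℕ) : eis)) = ((-1 * (q : ℤ) : ℤ) : eis) := by push_cast; ring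
    rw [this, h.sy, jacobiSym.mul_left]
    push_cast
    rfl
  have hcop : IsCoprime ((p : ℕ) : ℤ) ((q : ℕ) : ℤ) :=
    Nat.isCoprime_iff_coprime.2 ((Nat.coprime_primes h.pr hq).2 hne)
  have v1 : ((J((p : ℤ) | q) : ℤ) : ℂ) = 1 ∨ ((J((p : ℤ) | q) : ℤ) : ℂ) = -1 := by
    apply jval
    exact Int.cast_ne_zero.2 (jacobiSym.ne_zero (Int.isCoprime_iff_gcd_eq_one.1 hcop))
  rw [e1, jm h2 h.odd, jneg h.odd]
  obtain ⟨a, ha⟩ : ∃ a, z + b = 1 + 2 * a := ⟨(z + b - 1) / 2, by have := h.par; omega⟩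
  obtain ⟨c, hc⟩ : ∃ c, -(q : ℤ) = 1 + 2 * c := ⟨(-(q : ℤ) - 1) / 2, by omega⟩
  rw [h.bt ha, bt_negq hc]
  show _ = (a : ZMod 2) * 0 + (b : ZMod 2) * (c : ZMod 2) + (b : ZMod 2) * 0
  have hr := res h.eq h.odd
  have two : ∀ x : ZMod 2, x + x = 0 := by decide
  have ev : ∀ x : ℤ, x % 2 = 0 → (x : ZMod 2) = 0 := fun x hx =>
    (ZMod.intCast_zmod_eq_zero_iff_dvd x 2).2 (by push_cast; omega)
  have od : ∀ x : ℤ, x % 2 = 1 → (x : ZMod 2) = 1 := fun x hx => by
    have : (x : ZMod 2) = ((1 : ℤ) : ZMod 2) := by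
      rw [ZMod.intCast_eq_intCast_iff]
      show x % 2 = 1 % 2
      omega
    rw [this, Int.cast_one]
  rcases Int.emod_two_eq_zero_or_one b with hb | hb
  · rw [if_pos (show p % 4 = 1 by omega), if_pos (Or.inr (show p % 4 = 1 by omega)), ev b hb]
    push_cast
    rw [one_mul, one_mul, two]
    ring
  · rw [if_neg (show ¬ p % 4 = 1 by omega), od b hb]
    by_cases h4 : q % 4 = 1
    · rw [if_pos (Or.inl h4), od c (by omega)]
      push_cast
      rw [one_mul, neg_one_mul, ← neg_one_mul, lg_mul (Or.inr rfl) v1, lg_neg_one]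
      linear_combination two (lg ((J((p : ℤ) | q) : ℤ) : ℂ))
    · rw [if_neg (by omega), ev c (by omega)]
      push_cast
      have e5 : (-1 : ℂ) * (-1 * ((J((p : ℤ) | q) : ℤ) : ℂ)) = ((J((p : ℤ) | q) : ℤ) : ℂ) := by ring
      rw [e5, two]
      ring

/-- **the reciprocity law** -/
theorem t_REC : S_REC := by
  intro π ρ hπ hρ hne
  have hne' : ρ ∉ sp π := by
    intro h
    rw [Ideal.mem_span_singleton] at h hne
    exact hne ((hπ.pr.irreducible.associated_of_dvd hρ.pr.irreducible h).symm.dvd)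
  rcases PX.cases hπ with ⟨p, z, b, h⟩ | ⟨p, hp, hp2, hp3, rfl⟩ <;>
    rcases PX.cases hρ with ⟨q, u, d, h'⟩ | ⟨q, hq, hq2, hq3, rfl⟩
  · exact rec11 h h' hne hne'
  · refine rec12 h hq hq2 hq3 ?_
    rintro rfl
    apply hne'
    rw [Ideal.mem_span_singleton, dvd_neg, ← norm_cj π h.nm]
    exact dvd_mul_right _ _
  · rw [add_comm, mul_comm]
    refine rec12 h' hp hp2 hp3 ?_
    rintro rfl
    apply hne
    rw [Ideal.mem_span_singleton, dvd_neg, ← norm_cj ρ h'.nm]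
    exact dvd_mul_right _ _
  · have hpq : p ≠ q := by
      rintro rfl
      exact hne (Ideal.mem_span_singleton_self _)
    have key : ∀ {p q : ℕ}, p.Prime → q.Prime → q % 2 = 1 → q % 3 = 2 → p ≠ q →
        lg (sy (-((q : ℕ) : eis)) (-((p : ℕ) : eis))) = 0 := by
      intro p q hp hq hq2 hq3 hpq
      have hn : (-((p : ℕ) : eis)) * cj (-((p : ℕ) : eis)) = ((p ^ 2 : ℕ) : eis) := by
        have : cj (-((p : ℕ) : eis)) = -((p : ℕ) : eis) := by
          show cjh (-((p : ℕ) : eis)) = _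
          rw [map_neg, map_natCast]
        rw [this]
        push_cast
        ring
      rw [sy_neg_mod, sy_inert hq hq2 hq3 _ hn]
      push_cast
      rw [jsq (Nat.isCoprime_iff_coprime.2 ((Nat.coprime_primes hp hq).2 hpq)), Int.cast_one,
        lg_one]
    rw [key hp hq hq2 hq3 hpq, key hq hp hp2 hp3 hpq.symm]
    obtain ⟨a, ha⟩ : ∃ a, -(p : ℤ) = 1 + 2 * a := ⟨(-(p : ℤ) - 1) / 2, by omega⟩
    obtain ⟨c, hc⟩ : ∃ c, -(q : ℤ) = 1 + 2 * c := ⟨(-(q : ℤ) - 1) / 2, by omega⟩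
    rw [bt_negq ha, bt_negq hc]
    show _ = (a : ZMod 2) * 0 + (0 : ZMod 2) * (c : ZMod 2) + (0 : ZMod 2) * 0
    ring

/-- **the supplementary laws** -/
theorem t_SUP : S_SUP := by
  intro π hπ
  have ev : ∀ x : ℤ, x % 2 = 0 → (x : ZMod 2) = 0 := fun x hx =>
    (ZMod.intCast_zmod_eq_zero_iff_dvd x 2).2 (by push_cast; omega)
  have od : ∀ x : ℤ, x % 2 = 1 → (x : ZMod 2) = 1 := fun x hx => by
    have : (x : ZMod 2) = ((1 : ℤ) : ZMod 2) := by
      rw [ZMod.intCast_eq_intCast_iff]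
      show x % 2 = 1 % 2
      omega
    rw [this, Int.cast_one]
  have two : ∀ x : ZMod 2, x + x = 0 := by decide
  rcases PX.cases hπ with ⟨p, z, b, h⟩ | ⟨q, hq, hq2, hq3, rfl⟩
  · obtain ⟨a, ha⟩ : ∃ a, z + b = 1 + 2 * a := ⟨(z + b - 1) / 2, by have := h.par; omega⟩
    have hr := res h.eq h.odd
    have hneg : lg (sy π (-1)) = (b : ZMod 2) := by
      have e1 : (-1 : eis) = ((-1 : ℤ) : eis) := by push_cast; rfl
      rw [e1, h.sy, lg_neg h.odd]
      rcases Int.emod_two_eq_zero_or_one b with hb | hb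
      · rw [if_pos (by omega), ev b hb]
      · rw [if_neg (by omega), od b hb]
    constructor
    · rw [hneg, h.bt ha]
      rfl
    · rw [h.bt ha]
      show _ = (0 : ZMod 2) * (b : ZMod 2) + 1 * (a : ZMod 2) + 1 * (b : ZMod 2)
      -- `b √-3 ≡ -z`
      have e1 : ((gz b : ℤ) : ℂ) * sy π la = sy π (-1) * ((gz z : ℤ) : ℂ) := by
        rw [← h.sb, ← gJ h.eq h.odd h.cz h.m3, ← h.sy, ← h.sy, ← sy_mul' h.prime,
          ← sy_mul' h.prime]
        apply sy_per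
        rw [Ideal.mem_span_singleton]
        refine ⟨1, ?_⟩
        rw [h.rep]
        unfold la ez
        push_cast
        ring
      have hs := sy_neg_one h.prime
      have hne : sy π la ≠ 0 := by
        intro h0
        rw [h0, mul_zero] at e1
        exact mul_ne_zero (sgn_ne hs) (sgn_ne (gz_sgn z)) e1.symm
      have hs2 : sy π la = 1 ∨ sy π la = -1 := by
        rcases sy_val π la with h1 | h1
        · exact absurd h1.2 hne
        · exact h1.2
      have l1 := congrArg lg e1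
      rw [lg_mul (gz_sgn b) hs2, lg_mul hs (gz_sgn z), lg_gz, lg_gz, hneg] at l1
      have key : ∀ a b : ZMod 4, G b + h2 b + G (1 + 2 * a - b) = h2 a + h2 b := by decide
      have k1 := key a b
      rw [h2_cast, h2_cast] at k1
      have hz : (z : ZMod 4) = 1 + 2 * a - b := by
        have e6 : z = 1 + 2 * a - b := by omega
        rw [e6]
        push_cast
        ring
      rw [hz] at l1
      linear_combination l1 + k1 - two (G (b : ZMod 4))
  · obtain ⟨c, hc⟩ : ∃ c, -(q : ℤ) = 1 + 2 * c := ⟨(-(q : ℤ) - 1) / 2, by omega⟩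
    rw [sy_neg_mod, sy_neg_mod, bt_negq hc]
    constructor
    · have hn : (-1 : eis) * cj (-1) = ((1 : ℕ) : eis) := by
        have : cj (-1 : eis) = -1 := by
          show cjh (-1) = _
          rw [map_neg, map_one]
        rw [this]
        push_cast
        ring
      rw [sy_inert hq hq2 hq3 _ hn]
      push_cast
      rw [jacobiSym.one_left, Int.cast_one, lg_one]
      rfl
    · have hn : (la : eis) * cj la = ((3 : ℕ) : eis) := by
        apply norm_cj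
        unfold la
        rw [normSq_ez]
        norm_num
      rw [sy_inert hq hq2 hq3 _ hn]
      show _ = (0 : ZMod 2) * 0 + 1 * (c : ZMod 2) + 1 * 0
      have e1 : J(((3 : ℕ) : ℤ) | q) = (if q % 4 = 1 then 1 else -1) * (-1) := by
        rw [jm (by norm_num) hq2, j3 (by omega), if_neg (show ¬ (q : ℤ) % 3 = 1 by omega)]
        congr 1
        simp
      rw [e1]
      by_cases h4 : q % 4 = 1
      · rw [if_pos h4, od c (by omega)]
        push_cast
        rw [one_mul, lg_neg_one]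
        ring
      · rw [if_neg h4, ev c (by omega)]
        push_cast
        rw [lg_one]
        ring

end Pool.Agent.L0h23.FR
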