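import Pool.Agent.L0h23.FR.Res

/-!
# The normalised prime elements
-/

set_option autoImplicit false
set_option linter.unusedSectionVars false

open scoped NumberTheorySymbols

namespace Pool.Agent.L0h23.FR

open Pool.Agent.W192.HK Pool.Agent.Y696 Pool.Agent.Y715.T.Lat Pool.Agent.L0h86.F3
open Pool.Agent.L0h4.T3 (norm_cj norm_of_cj norm_prod eis_nat_dvd nat_not_unit norm_mod_three
  inert_prime split_prime prime_of_norm exists_below hp)
open Pool.Agent.Y698.SG (lg lg_one lg_neg_one lg_mul)

lemma normSq_ez (a b : ℤ) : Complex.normSq ((ez a b : eis) : ℂ) = ((a ^ 2 - a * b + b ^ 2 : ℤ) : ℝ) := by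
  rw [ez_coe, norm_rep]

lemma ez_half (a b : ℤ) : (1 + 2 * ez a b : eis) = ez (1 + 2 * a) (2 * b) := by
  unfold ez
  push_cast
  ring

lemma ez_nat (q : ℕ) : ((q : ℕ) : eis) = ez q 0 := by
  rw [ez_int]
  push_cast
  rfl

/-- a prime element of degree one -/
structure D1 (ϖ : eis) (p : ℕ) (z b : ℤ) : Prop where
  pr : p.Prime
  odd : p % 2 = 1
  nm : Complex.normSq (ϖ : ℂ) = p
  eq : (p : ℤ) = z ^ 2 + 3 * b ^ 2
  m3 : z % 3 = 1
  rep : ϖ = ez (z + b) (2 * b)

/-- the classification of the normalised prime elements -/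
theorem PX.cases {ϖ : eis} (h : PX ϖ) : (∃ (p : ℕ) (z b : ℤ), D1 ϖ p z b) ∨
    ∃ q : ℕ, q.Prime ∧ q % 2 = 1 ∧ q % 3 = 2 ∧ ϖ = -((q : ℕ) : eis) := by
  obtain ⟨u, hu⟩ := h.n1
  obtain ⟨a, b, hab⟩ := h.half
  have h3 : (a + b) % 3 = 0 := by
    have h1 : la * u = ez a b := two_inj (by rw [← hab, hu]; ring)
    obtain ⟨c, d, rfl⟩ := ez_ex u
    unfold la at h1
    rw [ez_mul] at h1
    obtain ⟨h4, h5⟩ := ez_inj h1
    omega
  have hpr := h.pr
  have hn : Complex.normSq (ϖ : ℂ) = (((1 + 2 * a - b) ^ 2 + 3 * b ^ 2 : ℤ) : ℝ) := by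
    rw [hab, ez_half, normSq_ez]
    congr 1
    ring
  obtain ⟨p, hp1, hp2⟩ := exists_below (hp ϖ hpr)
  have hd : ϖ ∣ ((p : ℕ) : eis) := Ideal.mem_span_singleton.1 hp2
  obtain ⟨t, ht⟩ := hd
  obtain ⟨n, hn'⟩ := norm_int ϖ
  obtain ⟨m, hm⟩ := norm_int t
  have hnm := norm_prod hn' hm ht.symm
  have hnZ : (n : ℤ) = (1 + 2 * a - b) ^ 2 + 3 * b ^ 2 := by
    rw [hn'] at hn
    exact_mod_cast hn
  have hnodd : n % 2 = 1 := by
    rcases Int.emod_two_eq_zero_or_one b with hb | hb
    · have e1 := sq8 (z := 1 + 2 * a - b) (by omega)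
      have e2 := sq4 hb
      split_ifs at e2 <;> omega
    · have e1 := sq4 (z := 1 + 2 * a - b) (by omega)
      have e2 := sq8 hb
      split_ifs at e1 <;> omega
  obtain ⟨i, hi, hni⟩ := (Nat.dvd_prime_pow hp1).1 (Dvd.intro _ hnm)
  have hi' : i = 0 ∨ i = 1 ∨ i = 2 := by omega
  rcases hi' with rfl | rfl | rfl
  · exfalso
    apply hpr.not_isUnit
    rw [isUnit_iff', hn', hni]
    simp
  · left
    rw [pow_one] at hni
    rw [hni] at hn' hnZ hnodd
    exact ⟨p, 1 + 2 * a - b, b, hp1, hnodd, hn', hnZ, by omega, by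
      rw [hab, ez_half]
      congr 1
      ring⟩
  · right
    have hm1 : m = 1 := by
      have h5 : p ^ 2 * m = p ^ 2 * 1 := by rw [← hni, hnm, hni, mul_one]
      exact Nat.eq_of_mul_eq_mul_left (pow_pos hp1.pos 2) h5
    rw [hm1] at hm
    have h6 : t * cj t = 1 := by
      have := norm_cj t hm
      rwa [Nat.cast_one] at this
    have h7 : ϖ = (p : eis) * cj t := by
      rw [ht, mul_assoc, h6, mul_one]
    have h8 : Complex.normSq ((cj t : eis) : ℂ) = ((1 : ℕ) : ℝ) := by
      apply norm_of_cj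
      rw [Pool.Agent.L0h4.T3.cj_cj, mul_comm, h6, Nat.cast_one]
    obtain ⟨c, d, hcd⟩ := ez_ex (cj t)
    rw [hcd, normSq_ez] at h8
    have h9 : c ^ 2 - c * d + d ^ 2 = 1 := by exact_mod_cast h8
    rw [hcd, ez_nat, ez_mul, hab, ez_half] at h7
    obtain ⟨k1, k2⟩ := ez_inj h7
    have hpo : (p : ℤ) % 2 = 1 := by
      rcases Int.emod_two_eq_zero_or_one (p : ℤ) with h10 | h10
      · exfalso
        obtain ⟨s, hs⟩ := Int.dvd_of_emod_eq_zero h10
        rw [hs] at k1
        have : 2 * s * c - 0 * d = 2 * (s * c) := by ring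
        omega
      · exact h10
    have hde : d % 2 = 0 := by
      rcases Int.emod_two_eq_zero_or_one d with h10 | h10
      · exact h10
      · exfalso
        have h11 : (p : ℤ) * d + 0 * c - 0 * d = p * d := by ring
        rw [h11] at k2
        have h12 : (p * d) % 2 = 1 := by
          rw [Int.mul_emod, hpo, h10]
          norm_num
        omega
    have hd0 : d = 0 := by
      have h10 : (2 * c - d) ^ 2 + 3 * d ^ 2 = 4 := by linear_combination 4 * h9
      have h11 : d ^ 2 < 4 := by nlinarith [sq_nonneg (2 * c - d)]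
      have h12 : -2 < d ∧ d < 2 := by constructor <;> nlinarith
      omega
    rw [hd0] at h9 k1 k2
    have hc : c = 1 ∨ c = -1 := by
      have : (c - 1) * (c + 1) = 0 := by linear_combination h9
      rcases mul_eq_zero.1 this with h10 | h10
      · left; omega
      · right; omega
    have hb0 : b = 0 := by
      have : 2 * b = 0 := by linear_combination k2
      omega
    -- the residue modulo three
    have h33 : p % 3 = 2 := by
      have h10 : p % 3 = 0 ∨ p % 3 = 1 ∨ p % 3 = 2 := by omega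
      rcases h10 with h10 | h10 | h10
      · exfalso
        rcases hc with rfl | rfl <;> omega
      · exfalso
        obtain ⟨α, hα, -⟩ := split_prime hp1 h10
        have h11 : ϖ ∣ α * cj α := by
          rw [hα]
          exact ⟨t, ht⟩
        have hnα := norm_of_cj hα
        have hnα' : Complex.normSq ((cj α : eis) : ℂ) = p := by
          apply norm_of_cj
          rw [Pool.Agent.L0h4.T3.cj_cj, mul_comm, hα]
        have key : ∀ β : eis, Complex.normSq (β : ℂ) = p → ϖ ∣ β → False := by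
          rintro β hβ ⟨γ, hγ⟩
          obtain ⟨g, hg⟩ := norm_int γ
          rw [hγ] at hβ
          push_cast at hβ
          rw [Complex.normSq_mul, hn', hg, hni] at hβ
          have h12 : p ^ 2 * g = p := by exact_mod_cast hβ
          have h13 : p ^ 2 ∣ p := Dvd.intro _ h12
          have h14 := Nat.le_of_dvd hp1.pos h13
          have := hp1.two_le
          nlinarith
        rcases hpr.dvd_or_dvd h11 with h12 | h12
        · exact key _ hnα h12
        · exact key _ hnα' h12
      · exact h10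
    refine ⟨p, hp1, by omega, h33, ?_⟩
    rw [hab, ez_half, hb0, ez_nat]
    have e : -(ez (p : ℤ) 0) = ez (-p) 0 := by
      rw [ez_int, ez_int]
      push_cast
      rfl
    rw [e]
    congr 1
    rcases hc with rfl | rfl <;> omega

end Pool.Agent.L0h23.FR
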