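import Mathlib

/-!
# Jacobi symbols for the form `x² + 3 y²`
-/

set_option autoImplicit false

open scoped NumberTheorySymbols

namespace Pool.Agent.L0h23.FR

/-- the sign of an integer modulo four -/
def gz (x : ℤ) : ℤ := if x % 4 = 0 ∨ x % 4 = 1 then 1 else -1

lemma jm {m n : ℕ} (hm : m % 2 = 1) (hn : n % 2 = 1) :
    J((m : ℤ) | n) = (if m % 4 = 1 ∨ n % 4 = 1 then 1 else -1) * J((n : ℤ) | m) := by
  rw [jacobiSym.quadratic_reciprocity (Nat.odd_iff.2 hm) (Nat.odd_iff.2 hn)]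
  congr 1
  split_ifs with h
  · rw [Even.neg_one_pow]
    rcases h with h | h
    · exact Even.mul_right (by rw [Nat.even_iff]; omega) _
    · exact Even.mul_left (by rw [Nat.even_iff]; omega) _
  · push Not at h
    rw [Odd.neg_one_pow]
    exact Odd.mul (by rw [Nat.odd_iff]; omega) (by rw [Nat.odd_iff]; omega)

lemma j2 {n : ℕ} (hn : n % 2 = 1) : J(2 | n) = if n % 8 = 1 ∨ n % 8 = 7 then 1 else -1 := by
  rw [jacobiSym.at_two (Nat.odd_iff.2 hn), ZMod.χ₈_nat_eq_if_mod_eight, if_neg (by omega)]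

lemma jneg {n : ℕ} (hn : n % 2 = 1) : J(-1 | n) = if n % 4 = 1 then 1 else -1 := by
  rw [jacobiSym.at_neg_one (Nat.odd_iff.2 hn), ZMod.χ₄_nat_eq_if_mod_four, if_neg (by omega)]

lemma sq8 {z : ℤ} (h : z % 2 = 1) : z ^ 2 % 8 = 1 := by
  obtain ⟨t, rfl⟩ : ∃ t, z = 1 + 2 * t := ⟨(z - 1) / 2, by omega⟩
  obtain ⟨s, hs⟩ := (Int.even_mul_succ_self t).two_dvd
  have : (1 + 2 * t) ^ 2 = 1 + 8 * s := by linear_combination 4 * hs
  omega

lemma sq4 {z : ℤ} (h : z % 2 = 0) : z ^ 2 % 8 = if z % 4 = 0 then 0 else 4 := by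
  split_ifs with h1
  · obtain ⟨t, rfl⟩ : ∃ t, z = 4 * t := ⟨z / 4, by omega⟩
    have : (4 * t) ^ 2 = 8 * (2 * t ^ 2) := by ring
    omega
  · obtain ⟨t, rfl⟩ : ∃ t, z = 2 + 4 * t := ⟨(z - 2) / 4, by omega⟩
    have : (2 + 4 * t) ^ 2 = 4 + 8 * (2 * t ^ 2 + 2 * t) := by ring
    omega

/-- the residues of the values of the form -/
lemma res {z b : ℤ} {n : ℕ} (hn : (n : ℤ) = z ^ 2 + 3 * b ^ 2) (ho : n % 2 = 1) :
    (z % 2 = 1 ∧ b % 4 = 0 ∧ n % 8 = 1) ∨ (z % 2 = 1 ∧ b % 4 = 2 ∧ n % 8 = 5) ∨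
      (z % 4 = 0 ∧ b % 2 = 1 ∧ n % 8 = 3) ∨ (z % 4 = 2 ∧ b % 2 = 1 ∧ n % 8 = 7) := by
  rcases Int.emod_two_eq_zero_or_one z with hz | hz <;>
    rcases Int.emod_two_eq_zero_or_one b with hb | hb
  · have h1 := sq4 hz
    have h2 := sq4 hb
    split_ifs at h1 h2 <;> omega
  · have h1 := sq4 hz
    have h2 := sq8 hb
    split_ifs at h1 <;> omega
  · have h1 := sq8 hz
    have h2 := sq4 hb
    split_ifs at h2 <;> omega
  · have h1 := sq8 hz
    have h2 := sq8 hb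
    omega

lemma jsq {a : ℤ} {m : ℕ} (h : IsCoprime a (m : ℤ)) : J(a ^ 2 | m) = 1 := by
  apply jacobiSym.sq_one'
  exact Int.isCoprime_iff_gcd_eq_one.1 h

lemma fJ_pos {z : ℤ} {b n : ℕ} (hn : (n : ℤ) = z ^ 2 + 3 * (b : ℤ) ^ 2) (ho : n % 2 = 1)
    (hc : IsCoprime (b : ℤ) n) (hb : b ≠ 0) : J((b : ℤ) | n) = gz b := by
  have hr := res hn ho
  obtain ⟨k, m, hm, rfl⟩ := Nat.exists_eq_two_pow_mul_odd hb
  have hm2 : m % 2 = 1 := Nat.odd_iff.1 hm
  have h1 : J((n : ℤ) | m) = 1 := by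
    have h2 : J((n : ℤ) | m) = J(z ^ 2 | m) := by
      apply jacobiSym.mod_left'
      rw [hn]
      apply Int.ModEq.symm
      rw [Int.modEq_iff_dvd]
      exact ⟨3 * 2 ^ k * 2 ^ k * m, by push_cast; ring⟩
    rw [h2]
    apply jsq
    have h4 : IsCoprime ((m : ℤ)) (n : ℤ) := hc.of_isCoprime_of_dvd_left (by
      push_cast
      exact Dvd.intro_left _ rfl)
    rw [hn] at h4
    have h6 : z ^ 2 + 3 * ((2 ^ k * m : ℕ) : ℤ) ^ 2 =
        z ^ 2 + (m : ℤ) * (3 * 2 ^ k * 2 ^ k * m) := by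
      push_cast
      ring
    rw [h6] at h4
    exact ((IsCoprime.pow_right_iff (by norm_num)).1 (IsCoprime.of_add_mul_left_right h4)).symm
  have h2 : J(((2 ^ k * m : ℕ) : ℤ) | n) = J(2 | n) ^ k * J((m : ℤ) | n) := by
    push_cast
    rw [jacobiSym.mul_left, jacobiSym.pow_left]
  rw [h2, jm hm2 ho, h1, mul_one, j2 ho]
  unfold gz
  rcases k with _ | _ | k
  · rw [pow_zero, one_mul] at hr
    rw [pow_zero, one_mul, pow_zero, one_mul]
    have e1 : (m % 4 = 1 ∨ n % 4 = 1) ↔ ((m : ℤ) % 4 = 0 ∨ (m : ℤ) % 4 = 1) := by omega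
    simp only [e1]
  · rw [zero_add, pow_one] at hr
    rw [zero_add, pow_one, pow_one, if_neg (by omega), if_pos (by omega), if_neg (by omega)]
    norm_num
  · have e : (2 ^ (k + 1 + 1) * m : ℕ) = 4 * (2 ^ k * m) := by ring
    rw [e] at hr ⊢
    rw [if_pos (by omega), if_pos (by omega), if_pos (by omega)]
    simp

/-- the value of the symbol of the second coordinate -/
theorem fJ {z b : ℤ} {n : ℕ} (hn : (n : ℤ) = z ^ 2 + 3 * b ^ 2) (ho : n % 2 = 1)
    (hc : IsCoprime b (n : ℤ)) (hb : b ≠ 0) : J(b | n) = gz b := by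
  rcases lt_or_gt_of_ne hb with h | h
  · obtain ⟨y, hy⟩ := Int.eq_ofNat_of_zero_le (show 0 ≤ -b by omega)
    have h1 : b = -(y : ℤ) := by omega
    have h2 := fJ_pos (z := z) (b := y) (n := n) (by rw [hn, h1]; ring) ho (by
      rw [h1] at hc
      exact (IsCoprime.neg_left_iff _ _).1 hc) (by omega)
    have h3 : J(b | n) = J(-1 | n) * J((y : ℤ) | n) := by
      rw [← jacobiSym.mul_left, h1]
      congr 1
      ring
    have hr := res hn ho
    rw [h3, h2, jneg ho]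
    unfold gz
    split_ifs <;> omega
  · obtain ⟨y, hy⟩ := Int.eq_ofNat_of_zero_le h.le
    rw [hy] at hn hc ⊢
    exact fJ_pos hn ho hc (by omega)

lemma j3 {z : ℤ} (h : z % 3 ≠ 0) : J(z | 3) = if z % 3 = 1 then 1 else -1 := by
  rw [jacobiSym.mod_left]
  have h1 : z % 3 = 1 ∨ z % 3 = 2 := by omega
  rcases h1 with h1 | h1
  · rw [if_pos h1]
    push_cast
    rw [h1]
    exact jacobiSym.one_left 3
  · rw [if_neg (by omega)]
    push_cast
    rw [h1]
    rw [j2 (by norm_num)]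
    norm_num

lemma gJ_pos {b : ℤ} {z n : ℕ} (hn : (n : ℤ) = (z : ℤ) ^ 2 + 3 * b ^ 2) (ho : n % 2 = 1)
    (hc : IsCoprime (z : ℤ) n) (h3 : z % 3 ≠ 0) : J((z : ℤ) | n) = gz z * J((z : ℤ) | 3) := by
  have hr := res hn ho
  have hz : z ≠ 0 := by rintro rfl; exact h3 rfl
  obtain ⟨k, m, hm, rfl⟩ := Nat.exists_eq_two_pow_mul_odd hz
  have hm2 : m % 2 = 1 := Nat.odd_iff.1 hm
  have h1 : J((n : ℤ) | m) = J(3 | m) := by
    have h2 : J((n : ℤ) | m) = J(3 * b ^ 2 | m) := by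
      apply jacobiSym.mod_left'
      rw [hn]
      apply Int.ModEq.symm
      rw [Int.modEq_iff_dvd]
      exact ⟨2 ^ k * 2 ^ k * m, by push_cast; ring⟩
    rw [h2, jacobiSym.mul_left]
    have h5 : J(b ^ 2 | m) = 1 := by
      apply jsq
      have h4 : IsCoprime ((m : ℤ)) (n : ℤ) := hc.of_isCoprime_of_dvd_left (by
        push_cast
        exact Dvd.intro_left _ rfl)
      rw [hn] at h4
      have h6 : ((2 ^ k * m : ℕ) : ℤ) ^ 2 + 3 * b ^ 2 =
          3 * b ^ 2 + (m : ℤ) * (2 ^ k * 2 ^ k * m) := by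
        push_cast
        ring
      rw [h6] at h4
      have h7 := IsCoprime.of_add_mul_left_right h4
      exact ((IsCoprime.pow_right_iff (by norm_num)).1 h7.of_mul_right_right).symm
    rw [h5, mul_one]
  have h4 : J((3 : ℤ) | m) = (if m % 4 = 1 then 1 else -1) * J((m : ℤ) | 3) := by
    have := jm (m := 3) (n := m) (by norm_num) hm2
    push_cast at this
    rw [this]
    congr 1
    simp
  have h2 : J(((2 ^ k * m : ℕ) : ℤ) | n) = J(2 | n) ^ k * J((m : ℤ) | n) := by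
    push_cast
    rw [jacobiSym.mul_left, jacobiSym.pow_left]
  have h5 : J(((2 ^ k * m : ℕ) : ℤ) | 3) = (-1) ^ k * J((m : ℤ) | 3) := by
    push_cast
    rw [jacobiSym.mul_left, jacobiSym.pow_left, j2 (by norm_num)]
    norm_num
  rw [h2, h5, jm hm2 ho, h1, h4, j2 ho]
  unfold gz
  rcases k with _ | _ | k
  · rw [pow_zero, one_mul] at hr
    rw [pow_zero, one_mul, pow_zero, one_mul, pow_zero, one_mul, if_pos (by omega)]
    have e1 : (m % 4 = 1) ↔ ((m : ℤ) % 4 = 0 ∨ (m : ℤ) % 4 = 1) := by omega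
    simp only [e1]
    ring
  · rw [zero_add, pow_one] at hr
    rw [zero_add, pow_one, pow_one, pow_one, if_pos (by omega),
      if_neg (show ¬ (((2 * m : ℕ) : ℤ) % 4 = 0 ∨ ((2 * m : ℕ) : ℤ) % 4 = 1) by omega)]
    by_cases h6 : m % 4 = 1
    · rw [if_pos (Or.inl h6), if_pos h6]
      ring
    · rw [if_neg (by omega), if_neg h6]
      ring
  · have e : (2 ^ (k + 1 + 1) * m : ℕ) = 4 * (2 ^ k * m) := by ring
    rw [e] at hr ⊢
    rw [if_neg (show ¬ (n % 8 = 1 ∨ n % 8 = 7) by omega),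
      if_pos (show ((4 * (2 ^ k * m) : ℕ) : ℤ) % 4 = 0 ∨ ((4 * (2 ^ k * m) : ℕ) : ℤ) % 4 = 1 by omega)]
    by_cases h6 : m % 4 = 1
    · rw [if_pos (Or.inl h6), if_pos h6]
      ring
    · rw [if_neg (by omega), if_neg h6]
      ring

/-- the value of the symbol of the first coordinate -/
theorem gJ {z b : ℤ} {n : ℕ} (hn : (n : ℤ) = z ^ 2 + 3 * b ^ 2) (ho : n % 2 = 1)
    (hc : IsCoprime z (n : ℤ)) (h3 : z % 3 = 1) : J(z | n) = gz z := by
  rcases lt_or_ge z 0 with h | h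
  · obtain ⟨y, hy⟩ := Int.eq_ofNat_of_zero_le (show 0 ≤ -z by omega)
    have h1 : z = -(y : ℤ) := by omega
    have h2 := gJ_pos (z := y) (b := b) (n := n) (by rw [hn, h1]; ring) ho (by
      rw [h1] at hc
      exact (IsCoprime.neg_left_iff _ _).1 hc) (by omega)
    have h4 : J(z | n) = J(-1 | n) * J((y : ℤ) | n) := by
      rw [← jacobiSym.mul_left, h1]
      congr 1
      ring
    have hr := res hn ho
    rw [h4, h2, jneg ho, j3 (by omega), if_neg (show ¬ (y : ℤ) % 3 = 1 by omega)]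
    unfold gz
    split_ifs <;> omega
  · obtain ⟨y, hy⟩ := Int.eq_ofNat_of_zero_le h
    rw [hy] at hn hc h3 ⊢
    rw [gJ_pos hn ho hc (by omega), j3 (by omega), if_pos h3, mul_one]

end Pool.Agent.L0h23.FR
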