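import Pool.Agent.L0h86.F3.Rf
import Pool.Agent.L0h4.T3.Pri
import Pool.Agent.L0h23.FR.Jac

/-!
# The symbols modulo the primes of degree one and two
-/

set_option autoImplicit false
set_option linter.unusedSectionVars false

open scoped NumberTheorySymbols

namespace Pool.Agent.L0h23.FR

open Pool.Agent.W192.HK Pool.Agent.Y696 Pool.Agent.Y715.T.Lat Pool.Agent.L0h86.F3
open Pool.Agent.L0h4.T3 (norm_cj norm_of_cj norm_prod eis_nat_dvd nat_not_unit norm_mod_three
  inert_prime split_prime prime_of_norm exists_below hp)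
open Pool.Agent.Y698.SG (lg lg_one lg_neg_one lg_mul)

lemma card_nat {x : eis} {n : ℕ} (h : Complex.normSq (x : ℂ) = n) :
    Nat.card (eis ⧸ sp x) = n := by
  have := card_quot x
  rw [h] at this
  exact_mod_cast this

/-- the primes of degree one -/
lemma sy_deg1 {p : ℕ} (hp : p.Prime) {ϖ : eis} (hN : Complex.normSq (ϖ : ℂ) = p) (m : ℤ) :
    sy ϖ (m : eis) = ((J(m | p) : ℤ) : ℂ) := by
  have _ : Fact p.Prime := ⟨hp⟩
  have hc := card_nat hN
  have hfin : Finite (eis ⧸ sp ϖ) := Nat.finite_of_card_ne_zero (by rw [hc]; exact hp.ne_zero)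
  let _ : Fintype (eis ⧸ sp ϖ) := Fintype.ofFinite _
  have hc' : Fintype.card (eis ⧸ sp ϖ) = p := by rw [← hc, Nat.card_eq_fintype_card]
  obtain ⟨E⟩ : Nonempty ((eis ⧸ sp ϖ) ≃+* ZMod p) := ⟨(ZMod.ringEquivOfPrime _ hp hc').symm⟩
  have h1 := sy_eq (F := ZMod p) (ϖ := ϖ) ((E : (eis ⧸ sp ϖ) →+* ZMod p).comp (Ideal.Quotient.mk (sp ϖ)))
    (E.surjective.comp Ideal.Quotient.mk_surjective) (fun x => by
      rw [RingHom.comp_apply, ← Ideal.Quotient.eq_zero_iff_mem]
      exact E.map_eq_zero_iff) (m : eis)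
  rw [h1, map_intCast, ← jacobiSym.legendreSym.to_jacobiSym]
  rfl

/-- the inert primes -/
lemma sy_inert {q : ℕ} (hq : q.Prime) (h2 : q % 2 = 1) (h3 : q % 3 = 2) (x : eis) {n : ℕ}
    (hn : x * cj x = (n : eis)) : sy (q : eis) x = ((J(n | q) : ℤ) : ℂ) := by
  have _ : Fact q.Prime := ⟨hq⟩
  have hpr := inert_prime hq h3
  have hN : Complex.normSq (((q : ℕ) : eis) : ℂ) = ((q ^ 2 : ℕ) : ℝ) := by
    push_cast
    rw [Complex.normSq_natCast]
    ring
  have hc := card_nat hN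
  classical
  have hm := maximal_sp hpr.irreducible
  let i1 : Field (eis ⧸ sp (q : eis)) := Ideal.Quotient.field (sp (q : eis))
  have hfin : Finite (eis ⧸ sp (q : eis)) := Nat.finite_of_card_ne_zero (by
    rw [hc]; exact pow_ne_zero _ hq.ne_zero)
  let i2 : Fintype (eis ⧸ sp (q : eis)) := Fintype.ofFinite _
  have hc' : Fintype.card (eis ⧸ sp (q : eis)) = q ^ 2 := by rw [← hc, Nat.card_eq_fintype_card]
  obtain ⟨φ, hφ⟩ : ∃ φ : eis →+* (eis ⧸ sp (q : eis)), φ = Ideal.Quotient.mk (sp (q : eis)) := ⟨_, rfl⟩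
  have hq0 : ((q : ℕ) : eis ⧸ sp (q : eis)) = 0 := by
    rw [← map_natCast (Ideal.Quotient.mk (sp (q : eis))), Ideal.Quotient.eq_zero_iff_mem]
    exact Ideal.mem_span_singleton_self _
  have hchar : CharP (eis ⧸ sp (q : eis)) q := by
    obtain ⟨r, hr⟩ := CharP.exists (eis ⧸ sp (q : eis))
    have h5 : r ∣ q := (CharP.cast_eq_zero_iff _ r q).1 hq0
    rcases (Nat.dvd_prime hq).1 h5 with h6 | h6
    · exact absurd h6 (CharP.char_ne_one (eis ⧸ sp (q : eis)) r)
    · rwa [h6] at hr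
  have hrc : ringChar (eis ⧸ sp (q : eis)) ≠ 2 := by
    rw [ringChar.eq _ q]
    omega
  have h1 := sy_eq (F := eis ⧸ sp (q : eis)) (ϖ := (q : eis)) φ
    (by rw [hφ]; exact Ideal.Quotient.mk_surjective) (fun y => by
      rw [hφ]; exact Ideal.Quotient.eq_zero_iff_mem) x
  rw [h1]
  congr 1
  -- the conjugation is the Frobenius
  have hfr : φ x ^ q = φ (cj x) := by
    obtain ⟨s, t, rfl⟩ := ez_ex x
    have e1 : cj (ez s t) = (s : eis) + (t : eis) * omr ^ 2 := by
      show cjh (ez s t) = _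
      unfold ez
      rw [map_add, map_mul, map_intCast, map_intCast]
      have : cjh omr = omr ^ 2 := by
        apply Subtype.ext
        show (starRingEnd ℂ) om = ((omr ^ 2 : eis) : ℂ)
        rw [conj_om]
        push_cast
        rw [omr_coe]
      rw [this]
    rw [e1]
    unfold ez
    rw [map_add, map_mul, map_intCast, map_intCast, map_add, map_mul, map_intCast, map_intCast,
      map_pow, add_pow_char, mul_pow]
    have e2 : ∀ s : ℤ, ((s : ℤ) : eis ⧸ sp (q : eis)) ^ q = s := by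
      intro s
      have := map_intCast (frobenius (eis ⧸ sp (q : eis)) q) s
      rwa [frobenius_def] at this
    have e3 : φ omr ^ q = φ omr ^ 2 := by
      have h4 : φ omr ^ 3 = 1 := by rw [← map_pow, omr_cube, map_one]
      obtain ⟨k, hk⟩ : ∃ k, q = 3 * k + 2 := ⟨q / 3, by omega⟩
      have : φ omr ^ (3 * k + 2) = φ omr ^ 2 := by rw [pow_add, pow_mul, h4, one_pow, one_mul]
      rw [← hk] at this
      exact this
    rw [e2, e2, e3]
  have hL : (((quadraticChar (eis ⧸ sp (q : eis)) (φ x) : ℤ)) : eis ⧸ sp (q : eis)) =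
      ((n : ℕ) : eis ⧸ sp (q : eis)) ^ (q / 2) := by
    rw [quadraticChar_eq_pow_of_char_ne_two' hrc, hc']
    have e1 : q ^ 2 / 2 = (q + 1) * (q / 2) := by
      obtain ⟨k, hk⟩ : ∃ k, q = 2 * k + 1 := ⟨q / 2, by omega⟩
      rw [hk]
      have e2 : (2 * k + 1) ^ 2 = 2 * ((2 * k + 1 + 1) * k) + 1 := by ring
      rw [e2]
      have e3 : (2 * k + 1) / 2 = k := by omega
      rw [e3]
      omega
    rw [e1, pow_mul, pow_succ, hfr, ← map_mul, mul_comm (cj x) x, hn, map_natCast]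
  have hR : ((J(n | q) : ℤ) : eis ⧸ sp (q : eis)) = ((n : ℕ) : eis ⧸ sp (q : eis)) ^ (q / 2) := by
    have h5 := legendreSym.eq_pow q (n : ℤ)
    rw [jacobiSym.legendreSym.to_jacobiSym] at h5
    have h6 := congrArg (ZMod.castHom (dvd_refl q) (eis ⧸ sp (q : eis))) h5
    rw [map_intCast, map_pow, map_intCast] at h6
    push_cast at h6
    exact h6
  refine Int.cast_injOn_of_ringChar_ne_two hrc ?_ ?_ (hL.trans hR.symm)
  · rcases quadraticChar_isQuadratic (eis ⧸ sp (q : eis)) (φ x) with h | h | h <;> simp [h]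
  · rcases jacobiSym.trichotomy (n : ℤ) q with h | h | h <;> simp [h]

end Pool.Agent.L0h23.FR
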